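import Pool.Agent.Helper40.LS.Basic

/-! LS-H6: the reserve. -/

set_option autoImplicit false
open Classical Filter Topology

namespace Pool.Agent.Helper40.LS

/-- probability that a fixed set is contained in the random set -/
theorem h6_superset {X : Type} [Fintype X] (p : ℝ) (D : Finset X) :
    ∑ S : Finset X, FL.wt p S * ind (D ⊆ S) = p ^ D.card := by
  have h := Finset.prod_add (fun _ : X => p) (fun x => if x ∈ D then 0 else 1 - p) Finset.univ
  have h1 : ∏ x : X, (p + if x ∈ D then 0 else 1 - p) = p ^ D.card := by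
    have h3 : ∀ x : X, (p + if x ∈ D then 0 else 1 - p) = if x ∈ D then p else 1 := by
      intro x; split_ifs <;> ring
    rw [Finset.prod_congr rfl fun x _ => h3 x, Finset.prod_ite_mem, Finset.univ_inter,
      Finset.prod_const]
  rw [← h1, h, Finset.powerset_univ]
  refine Finset.sum_congr rfl fun S _ => ?_
  rw [Finset.prod_const]
  by_cases hS : D ⊆ S
  · rw [ind_true hS, mul_one, FL.wt]
    congr 1
    have h4 : ∏ x ∈ Finset.univ \ S, (if x ∈ D then (0 : ℝ) else 1 - p) =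
        ∏ x ∈ Finset.univ \ S, (1 - p) := by
      refine Finset.prod_congr rfl fun x hx => ?_
      have hxS : x ∉ S := (Finset.mem_sdiff.1 hx).2
      rw [if_neg fun h5 => hxS (hS h5)]
    rw [h4, Finset.prod_const, Finset.card_sdiff_of_subset (Finset.subset_univ S),
      Finset.card_univ]
  · rw [ind_false hS, mul_zero]
    obtain ⟨x, hxD, hxS⟩ := Finset.not_subset.1 hS
    have h5 : ∏ x ∈ Finset.univ \ S, (if x ∈ D then (0 : ℝ) else 1 - p) = 0 :=
      Finset.prod_eq_zero (Finset.mem_sdiff.2 ⟨Finset.mem_univ x, hxS⟩) (if_pos hxD)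
    rw [h5, mul_zero]

/-- the moment generating function of a codegree -/
theorem h6_mgf {n : ℕ} (p a : ℝ) (c c' : Fin n) (hc : c ≠ c') :
    Ex p (fun G : Gr n => (1 + a) ^ (nb G c ∩ nb G c').card) = (1 + a * p ^ 2) ^ n := by
  have h1 : ∀ G : Gr n, (1 + a) ^ (nb G c ∩ nb G c').card =
      ∑ Z ∈ (Finset.univ : Finset (Fin n)).powerset,
        a ^ Z.card * ind (Z ×ˢ ({c, c'} : Finset (Fin n)) ⊆ tr G) := by
    intro G
    have h2 : (1 + a) ^ (nb G c ∩ nb G c').card =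
        ∏ s : Fin n, (a * ind (s ∈ nb G c ∩ nb G c') + 1) := by
      have h3 : ∀ s : Fin n, (a * ind (s ∈ nb G c ∩ nb G c') + 1) =
          if s ∈ nb G c ∩ nb G c' then 1 + a else 1 := by
        intro s
        unfold ind
        split_ifs <;> ring
      rw [Finset.prod_congr rfl fun x _ => h3 x, Finset.prod_ite_mem, Finset.univ_inter,
        Finset.prod_const]
    rw [h2, Finset.prod_add]
    refine Finset.sum_congr rfl fun Z _ => ?_
    rw [Finset.prod_const_one, mul_one, Finset.prod_mul_distrib, Finset.prod_const]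
    congr 1
    by_cases hZ : ∀ s ∈ Z, s ∈ nb G c ∩ nb G c'
    · rw [ind_true, Finset.prod_congr rfl fun s hs => ind_true (hZ s hs), Finset.prod_const_one]
      rintro ⟨s, x⟩ hx
      rw [Finset.mem_product] at hx
      have h4 := Finset.mem_inter.1 (hZ s hx.1)
      have h5 : x = c ∨ x = c' := by simpa using hx.2
      rcases h5 with rfl | rfl
      · rw [mem_tr]; exact mem_nb.1 h4.1
      · rw [mem_tr]; exact mem_nb.1 h4.2
    · push Not at hZ
      obtain ⟨s, hs, hs'⟩ := hZ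
      rw [ind_false, Finset.prod_eq_zero hs (ind_false hs')]
      intro h4
      apply hs'
      rw [Finset.mem_inter, mem_nb, mem_nb]
      constructor
      · have := h4 (Finset.mem_product.2 ⟨hs, by simp⟩ : (s, c) ∈ Z ×ˢ ({c, c'} : Finset (Fin n)))
        exact mem_tr.1 this
      · have := h4 (Finset.mem_product.2 ⟨hs, by simp⟩ : (s, c') ∈ Z ×ˢ ({c, c'} : Finset (Fin n)))
        exact mem_tr.1 this
  have h6 : Ex p (fun G : Gr n => (1 + a) ^ (nb G c ∩ nb G c').card) =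
      ∑ Z ∈ (Finset.univ : Finset (Fin n)).powerset,
        a ^ Z.card * Ex p (fun G => ind (Z ×ˢ ({c, c'} : Finset (Fin n)) ⊆ tr G)) := by
    rw [show (fun G : Gr n => (1 + a) ^ (nb G c ∩ nb G c').card) = fun G =>
      ∑ Z ∈ (Finset.univ : Finset (Fin n)).powerset,
        a ^ Z.card * ind (Z ×ˢ ({c, c'} : Finset (Fin n)) ⊆ tr G) from funext h1, Ex_sum]
    refine Finset.sum_congr rfl fun Z _ => ?_
    exact Ex_mul p _ _
  rw [h6]
  have h7 : ∀ Z : Finset (Fin n),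
      Ex p (fun G => ind (Z ×ˢ ({c, c'} : Finset (Fin n)) ⊆ tr G)) = (p ^ 2) ^ Z.card := by
    intro Z
    rw [Ex_tr p (fun G => ind (Z ×ˢ ({c, c'} : Finset (Fin n)) ⊆ G))]
    unfold Ex
    rw [h6_superset, Finset.card_product, Finset.card_pair hc, ← pow_mul]
    ring_nf
  simp only [h7]
  have h8 := Finset.prod_add (fun _ : Fin n => a * p ^ 2) (fun _ => 1) Finset.univ
  rw [Finset.prod_const, Finset.card_univ, Fintype.card_fin] at h8
  rw [add_comm, h8]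
  refine Finset.sum_congr rfl fun Z _ => ?_
  rw [Finset.prod_const, Finset.prod_const_one, mul_one, mul_pow]

theorem h6_exp {q t ζ : ℝ} (hq : 0 ≤ q) (hq1 : q ≤ 1) (ht : t = ζ / 2) (hζ : 0 < ζ)
    (hζ1 : ζ ≤ 1) (n : ℕ) :
    n * q * (Real.exp t - 1) - t * ((q + ζ) * n) ≤ -(ζ ^ 2 / 4 * n) ∧
    t * ((q - ζ) * n) - q * n * (1 - Real.exp (-t)) ≤ -(ζ ^ 2 / 4 * n) := by
  have hn : (0 : ℝ) ≤ n := Nat.cast_nonneg n
  have h1 : Real.exp t - 1 - t ≤ t ^ 2 :=
    (le_abs_self _).trans (Real.abs_exp_sub_one_sub_id_le (by rw [abs_le]; constructor <;> linarith))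
  have h2 : Real.exp (-t) - 1 - (-t) ≤ (-t) ^ 2 :=
    (le_abs_self _).trans (Real.abs_exp_sub_one_sub_id_le (by rw [abs_le]; constructor <;> linarith))
  have h3 : q * (Real.exp t - 1 - t) ≤ t ^ 2 := by
    have : q * (Real.exp t - 1 - t) ≤ q * t ^ 2 := mul_le_mul_of_nonneg_left h1 hq
    nlinarith [sq_nonneg t]
  have h4 : q * (Real.exp (-t) - 1 + t) ≤ t ^ 2 := by
    have : q * (Real.exp (-t) - 1 + t) ≤ q * t ^ 2 :=
      mul_le_mul_of_nonneg_left (by linarith) hq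
    nlinarith [sq_nonneg t]
  constructor
  · have h5 : n * q * (Real.exp t - 1) - t * ((q + ζ) * n) =
        n * (q * (Real.exp t - 1 - t) - t * ζ) := by ring
    have h6 : -(ζ ^ 2 / 4 * n) = n * (t ^ 2 - t * ζ) := by rw [ht]; ring
    rw [h5, h6]
    exact mul_le_mul_of_nonneg_left (by linarith) hn
  · have h5 : t * ((q - ζ) * n) - q * n * (1 - Real.exp (-t)) =
        n * (q * (Real.exp (-t) - 1 + t) - t * ζ) := by ring
    have h6 : -(ζ ^ 2 / 4 * n) = n * (t ^ 2 - t * ζ) := by rw [ht]; ring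
    rw [h5, h6]
    exact mul_le_mul_of_nonneg_left (by linarith) hn

/-- the tail of a codegree -/
theorem h6_cod {n : ℕ} {p ζ : ℝ} (hp : 0 ≤ p) (hp1 : p ≤ 1) (hζ : 0 < ζ) (hζ1 : ζ ≤ 1)
    (c c' : Fin n) (hc : c ≠ c') :
    FL.Pr p (fun G : Gr n => (p ^ 2 + ζ) * n ≤ ((nb G c ∩ nb G c').card : ℝ)) ≤
      Real.exp (-(ζ ^ 2 / 4 * n)) := by
  set t := ζ / 2 with ht
  have ht0 : 0 < t := by rw [ht]; linarith
  have hq1 : p ^ 2 ≤ 1 := pow_le_one₀ hp hp1
  have h1 := h6_mgf p (Real.exp t - 1) c c' hc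
  rw [← Ex_ind]
  have h2 : ∀ G : Gr n, ind ((p ^ 2 + ζ) * n ≤ ((nb G c ∩ nb G c').card : ℝ)) ≤
      Real.exp (-(t * ((p ^ 2 + ζ) * n))) *
        (1 + (Real.exp t - 1)) ^ (nb G c ∩ nb G c').card := by
    intro G
    have h3 : (1 + (Real.exp t - 1)) ^ (nb G c ∩ nb G c').card =
        Real.exp (t * ((nb G c ∩ nb G c').card : ℝ)) := by
      rw [add_sub_cancel, mul_comm t, Real.exp_nat_mul]
    rw [h3, ← Real.exp_add]
    by_cases h : (p ^ 2 + ζ) * n ≤ ((nb G c ∩ nb G c').card : ℝ)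
    · rw [ind_true h]
      apply Real.one_le_exp
      have := mul_le_mul_of_nonneg_left h ht0.le
      linarith
    · rw [ind_false h]; exact (Real.exp_pos _).le
  refine (Ex_mono hp hp1 h2).trans ?_
  rw [Ex_mul, h1]
  have h4 : (1 + (Real.exp t - 1) * p ^ 2) ^ n ≤ Real.exp (n * ((Real.exp t - 1) * p ^ 2)) := by
    rw [Real.exp_nat_mul]
    refine pow_le_pow_left₀ ?_ ?_ n
    · have : 1 ≤ Real.exp t := Real.one_le_exp ht0.le
      have : 0 ≤ (Real.exp t - 1) * p ^ 2 := mul_nonneg (by linarith) (sq_nonneg p)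
      linarith
    · have := Real.add_one_le_exp ((Real.exp t - 1) * p ^ 2)
      linarith
  refine (mul_le_mul_of_nonneg_left h4 (Real.exp_pos _).le).trans ?_
  rw [← Real.exp_add, Real.exp_le_exp]
  have h5 := (h6_exp (q := p ^ 2) (sq_nonneg p) hq1 ht hζ hζ1 n).1
  linarith

theorem h6_nb {n : ℕ} (G : Gr n) (c : Fin n) :
    (nb G c).card = (G ∩ (({c} : Finset (Fin n)) ×ˢ (Finset.univ : Finset (Fin n)))).card := by
  have h : (nb G c).image (fun s => (c, s)) =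
      G ∩ (({c} : Finset (Fin n)) ×ˢ (Finset.univ : Finset (Fin n))) := by
    ext ⟨a, b⟩
    simp only [Finset.mem_image, mem_nb, Prod.mk.injEq, Finset.mem_inter, Finset.mem_product,
      Finset.mem_singleton, Finset.mem_univ, and_true]
    constructor
    · rintro ⟨s, h, rfl, rfl⟩; exact ⟨h, rfl⟩
    · rintro ⟨h, rfl⟩; exact ⟨b, h, rfl, rfl⟩
  rw [← h, Finset.card_image_of_injective _ (fun a b h => (Prod.mk.inj h).2)]

/-- the one-sided bad event -/
def h6_bad {n : ℕ} (ρ ζ : ℝ) (G : Gr n) : Prop :=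
  ∃ c ∈ (Finset.univ : Finset (Fin n)), ((ρ + ζ) * n ≤ ((nb G c).card : ℝ) ∨
    ((nb G c).card : ℝ) ≤ (ρ - ζ) * n) ∨
    ∃ c' ∈ (Finset.univ : Finset (Fin n)).erase c,
      (ρ ^ 2 + ζ) * n ≤ ((nb G c ∩ nb G c').card : ℝ)

theorem h6_prob {n : ℕ} {ρ ζ : ℝ} (hρ : 0 ≤ ρ) (hρ1 : ρ ≤ 1) (hζ : 0 < ζ) (hζ1 : ζ ≤ 1) :
    FL.Pr ρ (h6_bad ρ ζ : Gr n → Prop) ≤ n * (2 + n) * Real.exp (-(ζ ^ 2 / 4 * n)) := by
  set t := ζ / 2 with ht
  have ht0 : 0 < t := by rw [ht]; linarith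
  have hexp := h6_exp (q := ρ) hρ hρ1 ht hζ hζ1 n
  have hE := Real.exp_pos (-(ζ ^ 2 / 4 * n))
  unfold h6_bad
  refine (FL.Pr_exists_le hρ hρ1 _ _).trans ?_
  have hc : ∀ c ∈ (Finset.univ : Finset (Fin n)),
      FL.Pr ρ (fun G : Gr n => ((ρ + ζ) * n ≤ ((nb G c).card : ℝ) ∨
        ((nb G c).card : ℝ) ≤ (ρ - ζ) * n) ∨
        ∃ c' ∈ (Finset.univ : Finset (Fin n)).erase c,
          (ρ ^ 2 + ζ) * n ≤ ((nb G c ∩ nb G c').card : ℝ)) ≤
      (2 + n) * Real.exp (-(ζ ^ 2 / 4 * n)) := by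
    intro c _
    set A : Gr n := ({c} : Finset (Fin n)) ×ˢ (Finset.univ : Finset (Fin n)) with hA
    have hAc : (A.card : ℝ) = n := by
      rw [hA, Finset.card_product, Finset.card_singleton, Finset.card_univ, Fintype.card_fin,
        one_mul]
    refine (FL.Pr_or_le hρ hρ1 _ _).trans ?_
    have h1 : FL.Pr ρ (fun G : Gr n => (ρ + ζ) * n ≤ ((nb G c).card : ℝ) ∨
        ((nb G c).card : ℝ) ≤ (ρ - ζ) * n) ≤ 2 * Real.exp (-(ζ ^ 2 / 4 * n)) := by
      refine (FL.Pr_or_le hρ hρ1 _ _).trans ?_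
      have h2 : FL.Pr ρ (fun G : Gr n => (ρ + ζ) * n ≤ ((nb G c).card : ℝ)) ≤
          Real.exp (-(ζ ^ 2 / 4 * n)) := by
        have h3 := tail_upper hρ hρ1 A ht0.le ((ρ + ζ) * n)
        refine le_trans (FL.Pr_mono hρ hρ1 fun G hG => ?_) (h3.trans (Real.exp_le_exp.2 ?_))
        · rw [h6_nb] at hG; exact hG
        · rw [hAc]
          have := hexp.1
          linarith
      have h4 : FL.Pr ρ (fun G : Gr n => ((nb G c).card : ℝ) ≤ (ρ - ζ) * n) ≤
          Real.exp (-(ζ ^ 2 / 4 * n)) := by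
        have h3 := tail_lower hρ hρ1 A ht0.le ((ρ - ζ) * n)
        refine le_trans (FL.Pr_mono hρ hρ1 fun G hG => ?_) (h3.trans (Real.exp_le_exp.2 ?_))
        · rw [h6_nb] at hG; exact hG
        · rw [hAc]
          exact hexp.2
      linarith
    have h5 : FL.Pr ρ (fun G : Gr n => ∃ c' ∈ (Finset.univ : Finset (Fin n)).erase c,
          (ρ ^ 2 + ζ) * n ≤ ((nb G c ∩ nb G c').card : ℝ)) ≤
        n * Real.exp (-(ζ ^ 2 / 4 * n)) := by
      refine (FL.Pr_exists_le hρ hρ1 _ _).trans ?_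
      have h6 : ∀ c' ∈ (Finset.univ : Finset (Fin n)).erase c,
          FL.Pr ρ (fun G : Gr n => (ρ ^ 2 + ζ) * n ≤ ((nb G c ∩ nb G c').card : ℝ)) ≤
          Real.exp (-(ζ ^ 2 / 4 * n)) := fun c' hc' =>
        h6_cod hρ hρ1 hζ hζ1 c c' (Finset.ne_of_mem_erase hc').symm
      refine (Finset.sum_le_sum h6).trans ?_
      rw [Finset.sum_const, nsmul_eq_mul]
      refine mul_le_mul_of_nonneg_right ?_ hE.le
      have h7 : ((Finset.univ : Finset (Fin n)).erase c).card ≤ n := by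
        refine (Finset.card_le_card (Finset.erase_subset _ _)).trans ?_
        rw [Finset.card_univ, Fintype.card_fin]
      exact_mod_cast h7
    linarith
  refine (Finset.sum_le_sum hc).trans (le_of_eq ?_)
  rw [Finset.sum_const, Finset.card_univ, Fintype.card_fin, nsmul_eq_mul]
  ring

theorem h6_tr {n : ℕ} (p : ℝ) (B : Gr n → Prop) :
    FL.Pr p (fun G => B (tr G)) = FL.Pr p B := by
  rw [← Ex_ind, ← Ex_ind]
  exact Ex_tr p (fun G => ind (B G))

theorem h6_lim {ζ : ℝ} (hζ : 0 < ζ) :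
    ∀ᶠ n : ℕ in atTop, 2 * ((n : ℝ) * (2 + n) * Real.exp (-(ζ ^ 2 / 4 * n))) < 1 := by
  have hc : 0 < ζ ^ 2 / 4 := by positivity
  have h1 : Tendsto (fun n : ℕ => ζ ^ 2 / 4 * (n : ℝ)) atTop atTop :=
    tendsto_natCast_atTop_atTop.const_mul_atTop hc
  have h2 := (Real.tendsto_pow_mul_exp_neg_atTop_nhds_zero 2).comp h1
  have h3 : Tendsto (fun n : ℕ => 6 / (ζ ^ 2 / 4) ^ 2 *
      ((ζ ^ 2 / 4 * (n : ℝ)) ^ 2 * Real.exp (-(ζ ^ 2 / 4 * n)))) atTop (𝓝 (6 / (ζ ^ 2 / 4) ^ 2 * 0)) :=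
    h2.const_mul _
  rw [mul_zero] at h3
  filter_upwards [h3.eventually_lt_const (show (0 : ℝ) < 1 by norm_num), eventually_ge_atTop 1]
    with n hn hn1
  have hn1' : (1 : ℝ) ≤ n := by exact_mod_cast hn1
  refine lt_of_le_of_lt ?_ hn
  have hE := Real.exp_pos (-(ζ ^ 2 / 4 * n))
  have h4 : 6 / (ζ ^ 2 / 4) ^ 2 * ((ζ ^ 2 / 4 * (n : ℝ)) ^ 2 * Real.exp (-(ζ ^ 2 / 4 * n))) =
      6 * (n : ℝ) ^ 2 * Real.exp (-(ζ ^ 2 / 4 * n)) := by
    field_simp
  rw [h4]
  have h5 : 2 * ((n : ℝ) * (2 + n)) ≤ 6 * (n : ℝ) ^ 2 := by nlinarith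
  calc 2 * ((n : ℝ) * (2 + n) * Real.exp (-(ζ ^ 2 / 4 * n)))
      = 2 * ((n : ℝ) * (2 + n)) * Real.exp (-(ζ ^ 2 / 4 * n)) := by ring
    _ ≤ 6 * (n : ℝ) ^ 2 * Real.exp (-(ζ ^ 2 / 4 * n)) := mul_le_mul_of_nonneg_right h5 hE.le

/-- LS-H6: the reserve -/
theorem reserve (ρ ζ : ℝ) (hρ : 0 < ρ) (hρ1 : ρ < 1) (hζ : 0 < ζ) :
    ∀ᶠ n : ℕ in atTop, ∃ R : Gr n, Reserve R ρ ζ := by
  set η := min ζ 1 with hη
  have hη0 : 0 < η := lt_min hζ one_pos
  have hη1 : η ≤ 1 := min_le_right _ _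
  have hηζ : η ≤ ζ := min_le_left _ _
  filter_upwards [h6_lim hη0] with n hn
  have hn0 : (0 : ℝ) ≤ n := Nat.cast_nonneg n
  have hηn : η * n ≤ ζ * n := mul_le_mul_of_nonneg_right hηζ hn0
  -- some graph is good on both sides
  obtain ⟨G, hG, hG'⟩ : ∃ G : Gr n, ¬ h6_bad ρ η G ∧ ¬ h6_bad ρ η (tr G) := by
    by_contra hcon
    push Not at hcon
    have h1 : FL.Pr ρ (fun G : Gr n => h6_bad ρ η G ∨ h6_bad ρ η (tr G)) = 1 := by
      rw [Pr_eq, ← FL.sum_wt (X := Fin n × Fin n) ρ]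
      refine Finset.sum_congr rfl fun G _ => ?_
      rw [ind_true, mul_one]
      by_cases h : h6_bad ρ η G
      · exact Or.inl h
      · exact Or.inr (hcon G h)
    have h2 := FL.Pr_or_le hρ.le hρ1.le (fun G : Gr n => h6_bad ρ η G)
      (fun G => h6_bad ρ η (tr G))
    rw [h1, h6_tr ρ (fun G => h6_bad ρ η G)] at h2
    have h3 := h6_prob (n := n) hρ.le hρ1.le hη0 hη1
    linarith
  have key : ∀ G : Gr n, ¬ h6_bad ρ η G → (∀ c, |((nb G c).card : ℝ) - ρ * n| ≤ ζ * n) ∧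
      ∀ c c', c ≠ c' → ((nb G c ∩ nb G c').card : ℝ) ≤ (ρ ^ 2 + ζ) * n := by
    intro G hG
    unfold h6_bad at hG
    push Not at hG
    refine ⟨fun c => ?_, fun c c' hc => ?_⟩
    · obtain ⟨⟨h1, h2⟩, _⟩ := hG c (Finset.mem_univ _)
      rw [abs_le]
      constructor <;> nlinarith
    · have h1 := (hG c (Finset.mem_univ _)).2 c' (Finset.mem_erase.2 ⟨hc.symm, Finset.mem_univ _⟩)
      nlinarith
  exact ⟨G, (key G hG).1, (key (tr G) hG').1, (key G hG).2, (key (tr G) hG').2⟩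

end Pool.Agent.Helper40.LS
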